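import Pool.Agent.H295R3.D6.Stmts

set_option autoImplicit false

open Finset Filter

namespace Pool.Agent.H586R3.D6

open Pool.Agent.H295R3.D6

lemma card_primes (w : ℕ) : ((Icc 1 w).filter Nat.Prime).card = Nat.primeCounting w := by
  rw [Nat.primeCounting, Nat.primeCounting', Nat.count_eq_card_filter_range]
  congr 1
  ext p
  simp only [mem_filter, mem_Icc, mem_range]
  constructor
  · rintro ⟨⟨_, h2⟩, h3⟩
    exact ⟨by omega, h3⟩
  · rintro ⟨h1, h2⟩
    exact ⟨⟨h2.one_lt.le, by omega⟩, h2⟩

/-- few primes up to `w` -/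
lemma few_primes (η : ℝ) (hη : 0 < η) :
    ∃ W : ℕ, ∀ w : ℕ, W ≤ w → (((Icc 1 w).filter Nat.Prime).card : ℝ) ≤ η * w := by
  have h1 := Chebyshev.eventually_primeCounting_le (ε := 1) one_pos
  have h2 : ∀ᶠ x : ℝ in atTop, (Real.log 4 + 1) / η ≤ Real.log x :=
    Real.tendsto_log_atTop.eventually_ge_atTop _
  have h3 : ∀ᶠ x : ℝ in atTop, (1 : ℝ) < x := eventually_gt_atTop 1
  have h4 : ∀ᶠ x : ℝ in atTop, ((Nat.primeCounting ⌊x⌋₊ : ℕ) : ℝ) ≤ η * x := by
    filter_upwards [h1, h2, h3] with x hx1 hx2 hx3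
    refine hx1.trans ?_
    have hlog : 0 < Real.log x := Real.log_pos hx3
    rw [div_le_iff₀ hlog]
    rw [div_le_iff₀ hη] at hx2
    nlinarith
  have h5 := tendsto_natCast_atTop_atTop (R := ℝ) |>.eventually h4
  obtain ⟨W, hW⟩ := eventually_atTop.1 h5
  refine ⟨W, fun w hw => ?_⟩
  have := hW w hw
  rw [Nat.floor_natCast] at this
  rw [card_primes]
  exact this

lemma sum_fact_aux (a q : ℕ) (b : ℕ) (hab : a ≤ b) :
    ∑ n ∈ Ioc a b, n.factorization q + (a.factorial).factorization q =
      (b.factorial).factorization q := by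
  induction b, hab using Nat.le_induction with
  | base => simp
  | succ b hb ih =>
    rw [Finset.sum_Ioc_succ_top hb, Nat.factorial_succ, Nat.factorization_mul (by omega)
      (Nat.factorial_ne_zero _), Finsupp.add_apply, ← ih]
    omega

lemma sum_fact (a b q : ℕ) (hab : a ≤ b) :
    ∑ n ∈ Ioc a b, n.factorization q =
      (b.choose a).factorization q + ((b - a).factorial).factorization q := by
  have h1 := sum_fact_aux a q b hab
  have h2 : (b.factorial).factorization q = (b.choose a).factorization q +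
      (a.factorial).factorization q + ((b - a).factorial).factorization q := by
    conv_lhs => rw [← Nat.choose_mul_factorial_mul_factorial hab]
    rw [Nat.factorization_mul (mul_ne_zero (Nat.choose_pos hab).ne' (Nat.factorial_ne_zero _))
      (Nat.factorial_ne_zero _), Nat.factorization_mul (Nat.choose_pos hab).ne'
      (Nat.factorial_ne_zero _)]
    simp
  omega

lemma log_fact_eq (n : ℕ) :
    Real.log n = ∑ q ∈ n.primeFactors, (n.factorization q : ℝ) * Real.log q := by
  rw [Real.log_nat_eq_sum_factorization, Finsupp.sum, Nat.support_factorization]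

lemma sum_primes_le_log (n w : ℕ) :
    ∑ q ∈ (Icc 1 w).filter Nat.Prime, (n.factorization q : ℝ) * Real.log q ≤ Real.log n := by
  rw [log_fact_eq]
  have h1 : ∑ q ∈ (Icc 1 w).filter Nat.Prime, (n.factorization q : ℝ) * Real.log q =
      ∑ q ∈ ((Icc 1 w).filter Nat.Prime).filter (fun q => q ∈ n.primeFactors),
        (n.factorization q : ℝ) * Real.log q := by
    symm
    apply sum_filter_of_ne
    intro q _ hne
    by_contra hcon
    apply hne
    rw [← Nat.support_factorization, Finsupp.notMem_support_iff] at hcon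
    rw [hcon]; simp
  rw [h1]
  refine sum_le_sum_of_subset_of_nonneg (fun q hq => (mem_filter.1 hq).2) ?_
  intro q _ _
  exact mul_nonneg (Nat.cast_nonneg _) (Real.log_natCast_nonneg _)

/-- small primes -/
lemma small_part (a b w : ℕ) (hab : a < b) :
    ∑ n ∈ Ioc a b, ∑ q ∈ (Icc 1 w).filter Nat.Prime, (n.factorization q : ℝ) * Real.log q ≤
      ((b - a : ℕ) : ℝ) * Real.log ((b - a : ℕ) : ℝ) +
        (((Icc 1 w).filter Nat.Prime).card : ℝ) * Real.log b := by
  rw [sum_comm]
  have h1 : ∀ q ∈ (Icc 1 w).filter Nat.Prime,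
      ∑ n ∈ Ioc a b, (n.factorization q : ℝ) * Real.log q ≤
        (((b - a).factorial).factorization q : ℝ) * Real.log q + Real.log b := by
    intro q hq
    have hqp : q.Prime := (mem_filter.1 hq).2
    rw [← sum_mul, ← Nat.cast_sum, sum_fact a b q hab.le, Nat.cast_add, add_mul, add_comm]
    refine add_le_add le_rfl ?_
    have h2 := Nat.pow_factorization_choose_le (p := q) (n := b) (k := a) (by omega)
    have h3 : Real.log ((q : ℝ) ^ ((b.choose a).factorization q)) ≤ Real.log b := by
      apply Real.log_le_log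
      · have : (0 : ℝ) < q := by exact_mod_cast hqp.pos
        positivity
      · exact_mod_cast h2
    rwa [Real.log_pow] at h3
  refine (sum_le_sum h1).trans ?_
  rw [sum_add_distrib, sum_const, nsmul_eq_mul]
  refine add_le_add ((sum_primes_le_log _ w).trans ?_) le_rfl
  have h4 : ((b - a).factorial : ℝ) ≤ ((b - a : ℕ) : ℝ) ^ (b - a) := by
    exact_mod_cast Nat.factorial_le_pow _
  calc Real.log ((b - a).factorial : ℝ) ≤ Real.log (((b - a : ℕ) : ℝ) ^ (b - a)) :=
        Real.log_le_log (by exact_mod_cast Nat.factorial_pos _) h4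
    _ = _ := by rw [Real.log_pow]

/-- pointwise bound at a number without large square factors -/
lemma pointwise (n w : ℕ) (Z : ℝ) (hn : n ≠ 0)
    (hgood : ∀ q : ℕ, q.Prime → w < q → ¬ q ^ 2 ∣ n) :
    Real.log n ≤ ∑ q ∈ (Icc 1 w).filter Nat.Prime, (n.factorization q : ℝ) * Real.log q +
      ∑ q ∈ n.primeFactors.filter (fun q : ℕ => w < q ∧ (q : ℝ) ≤ Z), Real.log q +
      ∑ q ∈ n.primeFactors.filter (fun q : ℕ => Z < (q : ℝ) ∧ Odd (n.factorization q)),
        Real.log q := by
  have hone : ∀ q ∈ n.primeFactors, w < q → n.factorization q = 1 := by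
    intro q hq hwq
    have hqp := Nat.prime_of_mem_primeFactors hq
    have h1 : ¬ 2 ≤ n.factorization q := fun h =>
      hgood q hqp hwq ((hqp.pow_dvd_iff_le_factorization hn).2 h)
    have h2 : 0 < n.factorization q := hqp.factorization_pos_of_dvd hn
      (Nat.dvd_of_mem_primeFactors hq)
    omega
  have hnn : ∀ q : ℕ, 0 ≤ (n.factorization q : ℝ) * Real.log q := fun q =>
    mul_nonneg (Nat.cast_nonneg _) (Real.log_natCast_nonneg _)
  rw [log_fact_eq, ← sum_filter_add_sum_filter_not n.primeFactors (fun q => q ≤ w), add_assoc]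
  refine add_le_add ?_ ?_
  · refine sum_le_sum_of_subset_of_nonneg ?_ fun q _ _ => hnn q
    intro q hq
    rw [mem_filter] at hq
    have hqp := Nat.prime_of_mem_primeFactors hq.1
    exact mem_filter.2 ⟨mem_Icc.2 ⟨hqp.one_lt.le, hq.2⟩, hqp⟩
  · rw [← sum_filter_add_sum_filter_not (n.primeFactors.filter (fun q => ¬ q ≤ w))
      (fun q : ℕ => (q : ℝ) ≤ Z)]
    refine add_le_add ?_ ?_
    · have h1 : ∀ q ∈ (n.primeFactors.filter (fun q => ¬ q ≤ w)).filter
          (fun q : ℕ => (q : ℝ) ≤ Z), (n.factorization q : ℝ) * Real.log q = Real.log q := by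
        intro q hq
        rw [mem_filter, mem_filter] at hq
        rw [hone q hq.1.1 (by omega)]; simp
      rw [sum_congr rfl h1]
      refine sum_le_sum_of_subset_of_nonneg ?_ fun q _ _ => Real.log_natCast_nonneg _
      intro q hq
      rw [mem_filter, mem_filter] at hq
      exact mem_filter.2 ⟨hq.1.1, by omega, hq.2⟩
    · have h1 : ∀ q ∈ (n.primeFactors.filter (fun q => ¬ q ≤ w)).filter
          (fun q : ℕ => ¬ (q : ℝ) ≤ Z), (n.factorization q : ℝ) * Real.log q = Real.log q := by
        intro q hq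
        rw [mem_filter, mem_filter] at hq
        rw [hone q hq.1.1 (by omega)]; simp
      rw [sum_congr rfl h1]
      refine sum_le_sum_of_subset_of_nonneg ?_ fun q _ _ => Real.log_natCast_nonneg _
      intro q hq
      rw [mem_filter, mem_filter] at hq
      refine mem_filter.2 ⟨hq.1.1, not_le.1 hq.2, ?_⟩
      rw [hone q hq.1.1 (by omega)]
      exact odd_one

theorem taskCHEB : TaskCHEB := by
  intro η hη hη2
  obtain ⟨W, hW⟩ := few_primes η hη
  have hev : ∀ᶠ N : ℕ in atTop, (W : ℝ) ≤ (N : ℝ) ^ η :=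
    ((tendsto_rpow_atTop hη).comp tendsto_natCast_atTop_atTop).eventually_ge_atTop (W : ℝ)
  filter_upwards [hev, eventually_ge_atTop 1] with N hN hN1
  intro w n₀ a b hw hwN hab hLw hwL hbN hn0 hbn hreg T hT R hR
  classical
  obtain ⟨hr1, hr2⟩ := hreg
  have hWw : W ≤ w := by
    have : (W : ℝ) ≤ w := hN.trans hw
    exact_mod_cast this
  have hπ := hW w hWw
  set Z : ℝ := (w : ℝ) * (N : ℝ) ^ (2 * η) with hZ
  have hN1' : (1 : ℝ) ≤ N := by exact_mod_cast hN1
  have hwZ : (w : ℝ) ≤ Z := by
    have : (1 : ℝ) ≤ (N : ℝ) ^ (2 * η) := Real.one_le_rpow hN1' (by positivity)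
    rw [hZ]
    nlinarith [Nat.cast_nonneg (α := ℝ) w]
  have hlogN : 0 ≤ Real.log N := Real.log_natCast_nonneg _
  have hTpos : ∀ n ∈ T, n ≠ 0 := fun n hn => by
    have := mem_Ioc.1 (hT hn); omega
  -- pointwise bound
  have hpt : ∀ n ∈ T, Real.log n ≤
      ∑ q ∈ (Icc 1 w).filter Nat.Prime, (n.factorization q : ℝ) * Real.log q +
      ∑ q ∈ n.primeFactors.filter (fun q : ℕ => w < q ∧ (q : ℝ) ≤ Z), Real.log q +
      ∑ q ∈ n.primeFactors.filter (fun q : ℕ => Z < (q : ℝ) ∧ Odd (n.factorization q)),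
        Real.log q +
      (if ∃ q : ℕ, q.Prime ∧ w < q ∧ q ^ 2 ∣ n then Real.log N else 0) := by
    intro n hn
    split_ifs with hbad
    · have h1 : Real.log n ≤ Real.log N := by
        apply Real.log_le_log
        · exact_mod_cast Nat.pos_of_ne_zero (hTpos n hn)
        · have := mem_Ioc.1 (hT hn)
          exact_mod_cast this.2.trans hbN
      have h2 : 0 ≤ ∑ q ∈ (Icc 1 w).filter Nat.Prime, (n.factorization q : ℝ) * Real.log q :=
        sum_nonneg fun q _ => mul_nonneg (Nat.cast_nonneg _) (Real.log_natCast_nonneg _)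
      have h3 : 0 ≤ ∑ q ∈ n.primeFactors.filter (fun q : ℕ => w < q ∧ (q : ℝ) ≤ Z),
          Real.log q := sum_nonneg fun q _ => Real.log_natCast_nonneg _
      have h4 : 0 ≤ ∑ q ∈ n.primeFactors.filter
          (fun q : ℕ => Z < (q : ℝ) ∧ Odd (n.factorization q)), Real.log q :=
        sum_nonneg fun q _ => Real.log_natCast_nonneg _
      linarith
    · rw [add_zero]
      push Not at hbad
      exact pointwise n w Z (hTpos n hn) hbad
  refine (sum_le_sum hpt).trans ?_
  rw [sum_add_distrib, sum_add_distrib, sum_add_distrib]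
  -- small primes
  have hA : ∑ n ∈ T, ∑ q ∈ (Icc 1 w).filter Nat.Prime, (n.factorization q : ℝ) * Real.log q ≤
      ((b - a : ℕ) : ℝ) * Real.log ((b - a : ℕ) : ℝ) + η * w * Real.log N := by
    refine (sum_le_sum_of_subset_of_nonneg hT fun n _ _ => sum_nonneg fun q _ =>
      mul_nonneg (Nat.cast_nonneg _) (Real.log_natCast_nonneg _)).trans ?_
    refine (small_part a b w hab).trans ?_
    refine add_le_add le_rfl ?_
    have hb : Real.log b ≤ Real.log N := by
      apply Real.log_le_log
      · have : 0 < b := by omega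
        exact_mod_cast this
      · exact_mod_cast hbN
    exact mul_le_mul hπ hb (Real.log_natCast_nonneg _) (by positivity)
  -- medium primes
  have hB : ∑ n ∈ T, ∑ q ∈ n.primeFactors.filter (fun q : ℕ => w < q ∧ (q : ℝ) ≤ Z),
      Real.log q ≤ 6 * η * w * Real.log N := by
    have hdisj : (T : Set ℕ).PairwiseDisjoint
        (fun n : ℕ => n.primeFactors.filter (fun q : ℕ => w < q ∧ (q : ℝ) ≤ Z)) := by
      intro n hn n' hn' hne
      rw [Function.onFun, Finset.disjoint_left]
      intro q hq hq'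
      rw [mem_filter] at hq hq'
      have hd := Nat.dvd_of_mem_primeFactors hq.1
      have hd' := Nat.dvd_of_mem_primeFactors hq'.1
      have h1 := mem_Ioc.1 (hT hn)
      have h2 := mem_Ioc.1 (hT hn')
      rcases lt_or_gt_of_ne hne with h | h
      · have h3 := Nat.dvd_sub hd' hd
        have h4 := Nat.le_of_dvd (by omega) h3
        omega
      · have h3 := Nat.dvd_sub hd hd'
        have h4 := Nat.le_of_dvd (by omega) h3
        omega
    rw [← sum_biUnion hdisj]
    refine le_trans (sum_le_sum_of_subset_of_nonneg ?_ fun q _ _ => Real.log_natCast_nonneg _) hr1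
    intro q hq
    rw [mem_biUnion] at hq
    obtain ⟨n, hn, hq⟩ := hq
    rw [mem_filter] at hq
    have hqp := Nat.prime_of_mem_primeFactors hq.1
    have h1 := mem_Ioc.1 (hT hn)
    refine mem_filter.2 ⟨mem_Icc.2 ⟨hqp.one_lt.le, Nat.le_floor hq.2.2⟩, hqp, hq.2.1, n,
      Nat.dvd_of_mem_primeFactors hq.1, by omega, by omega⟩
  -- numbers with a large square factor
  have hD : ∑ n ∈ T, (if ∃ q : ℕ, q.Prime ∧ w < q ∧ q ^ 2 ∣ n then Real.log N else 0) ≤
      η * w * Real.log N := by
    rw [← sum_filter, sum_const, nsmul_eq_mul]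
    refine mul_le_mul_of_nonneg_right (le_trans ?_ hr2) hlogN
    refine Nat.cast_le.2 (card_le_card ?_)
    intro n hn
    rw [mem_filter] at hn
    have h1 := mem_Ioc.1 (hT hn.1)
    exact mem_filter.2 ⟨mem_Ioo.2 ⟨by omega, by omega⟩, hn.2⟩
  have hwL' : (w : ℝ) ≤ 2 * ((b - a : ℕ) : ℝ) := by exact_mod_cast hwL
  have hfin : 8 * η * w * Real.log N ≤ 16 * η * ((b - a : ℕ) : ℝ) * Real.log N := by
    have : 8 * η * (w : ℝ) ≤ 16 * η * ((b - a : ℕ) : ℝ) := by nlinarith
    exact mul_le_mul_of_nonneg_right this hlogN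
  linarith

end Pool.Agent.H586R3.D6
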